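import Pool.Agent.Helper37.ETC.Defs

/-!
# Block W2: the residue field of characteristic `p` (MP_600e55_nt)
-/

set_option autoImplicit false

namespace Pool.Helper37.ETC

open IsLocalRing

/-! ## Additive Galois cohomology of a compact group acting on a field of characteristic `p` -/

section AS

variable {p : ℕ} [Fact p.Prime] {D κ : Type*} [Group D] [TopologicalSpace D]
  [IsTopologicalGroup D] [CompactSpace D] [Field κ] [MulSemiringAction D κ]

theorem W2.isOpen_smul_eq (hcont : ∀ x : κ, IsOpen {σ : D | σ • x = x}) (x y : κ) :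
    IsOpen {σ : D | σ • x = y} := by
  by_cases h : ∃ σ₀ : D, σ₀ • x = y
  · obtain ⟨σ₀, rfl⟩ := h
    have h1 : {σ : D | σ • x = σ₀ • x} = (fun σ : D => σ₀⁻¹ * σ) ⁻¹' {σ : D | σ • x = x} := by
      ext σ
      simp only [Set.mem_ofPred_eq, Set.mem_preimage, mul_smul, inv_smul_eq_iff]
    rw [h1]
    exact (hcont x).preimage (continuous_const.mul continuous_id)
  · push Not at h
    have h1 : {σ : D | σ • x = y} = ∅ := by
      ext σ
      simp [h σ]
    rw [h1]
    exact isOpen_empty

theorem W2.isLocallyConstant_smul (hcont : ∀ x : κ, IsOpen {σ : D | σ • x = x}) (x : κ) :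
    IsLocallyConstant (fun σ : D => σ • x) := by
  rw [IsLocallyConstant.iff_isOpen_fiber]
  intro y
  exact W2.isOpen_smul_eq hcont x y

/-- a finite stable set detecting a neighbourhood of `1`. -/
theorem W2.exists_stable (hcont : ∀ x : κ, IsOpen {σ : D | σ • x = x})
    (hf : ∀ σ : D, (∀ x : κ, σ • x = x) → σ = 1) (U : Set D) (hU : IsOpen U)
    (h1 : (1 : D) ∈ U) :
    ∃ T : Set κ, T.Finite ∧ (∀ x ∈ T, ∀ σ : D, σ • x ∈ T) ∧
      ∀ σ : D, (∀ x ∈ T, σ • x = x) → σ ∈ U := by
  have hcl : ∀ x : κ, IsClosed {σ : D | σ • x = x} := by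
    intro x
    have := (W2.isLocallyConstant_smul hcont x).isClopen_fiber x
    exact this.1
  obtain ⟨S, hS⟩ := hU.isClosed_compl.isCompact.elim_finite_subfamily_closed
    (fun x : κ => {σ : D | σ • x = x}) hcl (by
      ext σ
      simp only [Set.mem_inter_iff, Set.mem_compl_iff, Set.mem_iInter, Set.mem_ofPred_eq,
        Set.mem_empty_iff_false, iff_false, not_and, not_forall]
      intro hσ
      by_contra hx
      push Not at hx
      exact hσ (by rw [hf σ hx]; exact h1))
  refine ⟨⋃ x ∈ S, Set.range (fun σ : D => σ • x), ?_, ?_, ?_⟩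
  · exact S.finite_toSet.biUnion fun x _ => (W2.isLocallyConstant_smul hcont x).range_finite
  · intro x hx σ
    simp only [Set.mem_iUnion, Set.mem_range] at hx ⊢
    obtain ⟨y, hy, τ, rfl⟩ := hx
    exact ⟨y, hy, σ * τ, mul_smul _ _ _⟩
  · intro σ hσ
    by_contra hU'
    have : σ ∈ (Uᶜ ∩ ⋂ i ∈ S, {σ : D | σ • i = i}) := by
      refine ⟨hU', ?_⟩
      simp only [Set.mem_iInter, Set.mem_ofPred_eq]
      intro x hx
      apply hσ
      simp only [Set.mem_iUnion, Set.mem_range]
      exact ⟨x, hx, 1, one_smul _ _⟩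
    rw [hS] at this
    exact this

/-- the uniform local constancy of a `2`-cochain. -/
theorem W2.exists_nhd {c : D → D → ZMod p} (hc : IsLocallyConstant (fun q : D × D => c q.1 q.2)) :
    ∃ U : Set D, IsOpen U ∧ (1 : D) ∈ U ∧
      ∀ σ ∈ U, ∀ a b : D, c (a * σ) b = c a b ∧ c a (b * σ) = c a b := by
  have hcont : Continuous (fun q : D × D => c q.1 q.2) := by
    rw [continuous_def]
    intro s _
    exact hc s
  have h1 : IsOpen {q : D × (D × D) | c (q.2.1 * q.1) q.2.2 = c q.2.1 q.2.2 ∧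
      c q.2.1 (q.2.2 * q.1) = c q.2.1 q.2.2} := by
    have e1 : Continuous (fun q : D × (D × D) => c (q.2.1 * q.1) q.2.2) :=
      hcont.comp (f := fun q : D × (D × D) => (q.2.1 * q.1, q.2.2)) (by fun_prop)
    have e2 : Continuous (fun q : D × (D × D) => c q.2.1 q.2.2) :=
      hcont.comp (f := fun q : D × (D × D) => (q.2.1, q.2.2)) (by fun_prop)
    have e3 : Continuous (fun q : D × (D × D) => c q.2.1 (q.2.2 * q.1)) :=
      hcont.comp (f := fun q : D × (D × D) => (q.2.1, q.2.2 * q.1)) (by fun_prop)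
    have e4 : Continuous (fun q : D × (D × D) => (c (q.2.1 * q.1) q.2.2, c q.2.1 q.2.2,
        c q.2.1 (q.2.2 * q.1))) := e1.prodMk (e2.prodMk e3)
    exact (isOpen_discrete {q : ZMod p × ZMod p × ZMod p | q.1 = q.2.1 ∧ q.2.2 = q.2.1}).preimage e4
  obtain ⟨u, v, hu, -, hu1, hv1, huv⟩ := generalized_tube_lemma (isCompact_singleton (x := (1 : D)))
    (isCompact_univ (X := D × D)) h1 (by
      rintro ⟨σ, a, b⟩ ⟨hσ, -⟩
      simp only [Set.mem_singleton_iff] at hσ
      subst hσ
      simp)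
  refine ⟨u, hu, hu1 rfl, fun σ hσ a b => ?_⟩
  exact huv (Set.mk_mem_prod hσ (hv1 (Set.mem_univ (a, b))))

/-- `H² = 0` for a compact group acting faithfully on an Artin-Schreier closed field. -/
theorem cob_of_AS [CharP κ p] (hcont : ∀ x : κ, IsOpen {σ : D | σ • x = x})
    (hf : ∀ σ : D, (∀ x : κ, σ • x = x) → σ = 1) (hAS : ∀ y : κ, ∃ z : κ, z ^ p - z = y)
    {c : D → D → ZMod p} (hc : IsCoc p c) : IsCob p c := by
  classical
  obtain ⟨U, hU, hU1, hcU⟩ := W2.exists_nhd hc.2
  obtain ⟨T, hTf, hTs, hTU⟩ := W2.exists_stable hcont hf U hU hU1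
  let N : Subgroup D :=
    { carrier := {σ | ∀ x ∈ T, σ • x = x}
      mul_mem' := by
        intro a b ha hb x hx
        rw [mul_smul, hb x hx, ha x hx]
      one_mem' := by
        intro x _
        exact one_smul D x
      inv_mem' := by
        intro a ha x hx
        rw [inv_smul_eq_iff, ha x hx] }
  have hN : ∀ σ, σ ∈ N ↔ ∀ x ∈ T, σ • x = x := fun σ => Iff.rfl
  have hNn : N.Normal := by
    refine ⟨fun n hn g => ?_⟩
    rw [hN] at hn ⊢
    intro x hx
    rw [mul_smul, mul_smul, hn _ (hTs x hx g⁻¹), smul_inv_smul]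
  have hNo : IsOpen (N : Set D) := by
    have : (N : Set D) = ⋂ x ∈ T, {σ : D | σ • x = x} := by
      ext σ
      simp only [SetLike.mem_coe, hN, Set.mem_iInter, Set.mem_ofPred_eq]
    rw [this]
    exact hTf.isOpen_biInter fun x _ => hcont x
  have : Finite (D ⧸ N) := Subgroup.quotient_finite_of_isOpen N hNo
  have : Fintype (D ⧸ N) := Fintype.ofFinite _
  -- invariance of the sum over the quotient
  have hsum : ∀ (F : D → κ), (∀ σ τ : D, σ⁻¹ * τ ∈ N → F σ = F τ) → ∀ t : D,
      ∑ q : D ⧸ N, F (t * q.out) = ∑ q : D ⧸ N, F q.out := by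
    intro F hF t
    rw [← Equiv.sum_comp (Equiv.mulLeft (t : D ⧸ N)) (fun q : D ⧸ N => F q.out)]
    refine Finset.sum_congr rfl fun q _ => ?_
    refine hF _ _ ?_
    rw [← QuotientGroup.eq]
    simp
  -- an element of trace one
  let E : Subfield κ := FixedPoints.subfield N κ
  have hE : ∀ x : κ, x ∈ E ↔ ∀ n ∈ N, n • x = x := by
    intro x
    constructor
    · intro hx n hn
      exact hx ⟨n, hn⟩
    · intro hx n
      exact hx n n.2
  have hEsmul : ∀ x ∈ E, ∀ σ τ : D, σ⁻¹ * τ ∈ N → σ • x = τ • x := by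
    intro x hx σ τ h
    have := (hE x).1 hx _ h
    rw [mul_smul, inv_smul_eq_iff] at this
    exact this.symm
  let ch : (D ⧸ N) → (E →* κ) := fun q =>
    { toFun := fun x => q.out • (x : κ)
      map_one' := by simp
      map_mul' := fun x y => by simp }
  have hch : Function.Injective ch := by
    intro q q' h
    have h1 : ∀ x : κ, x ∈ E → q.out • x = q'.out • x := by
      intro x hx
      exact DFunLike.congr_fun h ⟨x, hx⟩
    have h2 : (q.out)⁻¹ * q'.out ∈ N := by
      rw [hN]
      intro x hx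
      rw [mul_smul, inv_smul_eq_iff]
      refine (h1 x ?_).symm
      rw [hE]
      intro n hn
      exact (hN n).1 hn x hx
    rw [← QuotientGroup.eq] at h2
    simpa using h2
  obtain ⟨θ₀, hθ₀⟩ : ∃ θ₀ : E, ∑ q : D ⧸ N, q.out • (θ₀ : κ) ≠ 0 := by
    by_contra hcon
    push Not at hcon
    have hli := (linearIndependent_monoidHom E κ).comp ch hch
    rw [Fintype.linearIndependent_iff] at hli
    have := hli (fun _ => 1) (by
      ext x
      simp only [Function.comp_apply, one_smul, Finset.sum_apply, Pi.zero_apply]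
      exact hcon x) (1 : D ⧸ N)
    exact one_ne_zero this
  obtain ⟨b, hb⟩ : ∃ b : κ, b = ∑ q : D ⧸ N, q.out • (θ₀ : κ) := ⟨_, rfl⟩
  have hb0 : b ≠ 0 := by rw [hb]; exact hθ₀
  have hbf : ∀ t : D, t • b = b := by
    intro t
    rw [hb, Finset.smul_sum]
    have := hsum (fun σ => σ • (θ₀ : κ)) (hEsmul _ θ₀.2) t
    simp only [mul_smul] at this
    exact this
  have hbi : ∀ t : D, t • b⁻¹ = b⁻¹ := by
    intro t
    rw [smul_inv'', hbf]
  obtain ⟨θ, hθ⟩ : ∃ θ : κ, θ = b⁻¹ * (θ₀ : κ) := ⟨_, rfl⟩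
  have hθE : θ ∈ E := by
    rw [hE]
    intro n hn
    rw [hθ, smul_mul', hbi, (hE _).1 θ₀.2 n hn]
  have htr : ∑ q : D ⧸ N, q.out • θ = 1 := by
    have : ∀ q : D ⧸ N, q.out • θ = b⁻¹ * (q.out • (θ₀ : κ)) := by
      intro q
      rw [hθ, smul_mul', hbi]
    rw [Finset.sum_congr rfl fun q _ => this q, ← Finset.mul_sum, ← hb, inv_mul_cancel₀ hb0]
  have htr' : ∀ t : D, ∑ q : D ⧸ N, (t * q.out) • θ = 1 := by
    intro t
    rw [hsum (fun σ => σ • θ) (hEsmul θ hθE) t, htr]
  have hθs := hEsmul θ hθE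
  -- the cochain is constant on cosets
  have hc1 : ∀ σ τ : D, σ⁻¹ * τ ∈ N → ∀ a : D, c σ a = c τ a ∧ c a σ = c a τ := by
    intro σ τ h a
    have h1 := (hcU _ (hTU _ ((hN _).1 h)) σ a).1
    have h2 := (hcU _ (hTU _ ((hN _).1 h)) a σ).2
    rw [mul_inv_cancel_left] at h1 h2
    exact ⟨h1.symm, h2.symm⟩
  let i : ZMod p →+* κ := ZMod.castHom dvd_rfl κ
  have hi : Function.Injective i := i.injective
  have hifix : ∀ (t : D) (a : ZMod p), t • i a = i a := by
    intro t a
    have : (MulSemiringAction.toRingHom D κ t).comp i = i := RingHom.ext_zmod _ _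
    exact DFunLike.congr_fun this a
  -- the cochain h
  let h : D → κ := fun s => ∑ q : D ⧸ N, i (c s q.out) * ((s * q.out) • θ)
  have hh : ∀ s t : D, i (c s t) = h s + s • h t - h (s * t) := by
    intro s t
    have e1 : h s = ∑ q : D ⧸ N, i (c s (t * q.out)) * ((s * (t * q.out)) • θ) := by
      have := hsum (fun σ => i (c s σ) * ((s * σ) • θ)) (by
        intro σ τ hst
        rw [(hc1 σ τ hst s).2, mul_smul, mul_smul, hθs σ τ hst]) t
      exact this.symm
    have e2 : s • h t = ∑ q : D ⧸ N, i (c t q.out) * ((s * (t * q.out)) • θ) := by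
      simp only [h, Finset.smul_sum, smul_mul', hifix, mul_smul]
    have e3 : h (s * t) = ∑ q : D ⧸ N, i (c (s * t) q.out) * ((s * (t * q.out)) • θ) := by
      simp only [h, mul_assoc]
    rw [e1, e2, e3, ← Finset.sum_add_distrib, ← Finset.sum_sub_distrib]
    have e4 : ∀ q : D ⧸ N, i (c s (t * q.out)) * ((s * (t * q.out)) • θ) +
        i (c t q.out) * ((s * (t * q.out)) • θ) - i (c (s * t) q.out) * ((s * (t * q.out)) • θ) =
        i (c s t) * ((s * t * q.out) • θ) := by
      intro q
      have := hc.1 s t q.out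
      rw [← add_mul, ← sub_mul, ← map_add, ← map_sub, mul_assoc s t]
      congr 2
      rw [add_comm, this]
      ring
    rw [Finset.sum_congr rfl fun q _ => e4 q, ← Finset.mul_sum, htr', mul_one]
  have hhN : ∀ σ τ : D, σ⁻¹ * τ ∈ N → h σ = h τ := by
    intro σ τ hst
    simp only [h]
    refine Finset.sum_congr rfl fun q _ => ?_
    rw [(hc1 σ τ hst _).1]
    congr 1
    refine hθs _ _ ?_
    have := hNn.conj_mem _ hst (q.out)⁻¹
    simpa [mul_assoc] using this
  -- the Artin-Schreier operator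
  have hpow : ∀ x y : κ, (x + y) ^ p = x ^ p + y ^ p := fun x y => add_pow_char x y p
  have hpows : ∀ x y : κ, (x - y) ^ p = x ^ p - y ^ p := fun x y => sub_pow_char x y
  let g : D → κ := fun s => h s ^ p - h s
  have hg : ∀ s t : D, g (s * t) = g s + s • g t := by
    intro s t
    have e1 : h (s * t) = h s + s • h t - i (c s t) := by rw [hh s t]; ring
    have e2 : (i (c s t)) ^ p = i (c s t) := by
      rw [← map_pow, ZMod.pow_card]
    simp only [g, smul_sub, smul_pow']
    rw [e1, hpows, hpow, e2]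
    ring
  have hgN : ∀ σ τ : D, σ⁻¹ * τ ∈ N → g σ = g τ := by
    intro σ τ hst
    simp only [g, hhN σ τ hst]
  obtain ⟨y, hy⟩ : ∃ y : κ, ∀ s : D, g s = s • y - y := by
    refine ⟨-∑ q : D ⧸ N, g q.out * (q.out • θ), fun s => ?_⟩
    have e1 := hsum (fun σ => g σ * (σ • θ)) (by
      intro σ τ hst
      rw [hgN σ τ hst, hθs σ τ hst]) s
    have e2 : ∑ q : D ⧸ N, g (s * q.out) * ((s * q.out) • θ) =
        g s + s • ∑ q : D ⧸ N, g q.out * (q.out • θ) := by
      rw [Finset.smul_sum]
      have : ∀ q : D ⧸ N, g (s * q.out) * ((s * q.out) • θ) =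
          g s * ((s * q.out) • θ) + s • (g q.out * (q.out • θ)) := by
        intro q
        rw [hg, smul_mul', add_mul, mul_smul]
      rw [Finset.sum_congr rfl fun q _ => this q, Finset.sum_add_distrib, ← Finset.mul_sum, htr',
        mul_one]
    rw [e2] at e1
    rw [smul_neg]
    linear_combination e1
  obtain ⟨z, hz⟩ := hAS y
  have hroot : ∀ x : κ, x ^ p = x → ∃ a : ZMod p, i a = x := by
    intro x hx
    have h1 : x ∈ (⊥ : Subfield κ) := (Subfield.mem_bot_iff_pow_eq_self κ p).2 hx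
    rw [← ZMod.fieldRange_castHom_eq_bot p] at h1
    obtain ⟨a, ha⟩ := h1
    exact ⟨a, ha⟩
  have hf1 : ∀ s : D, ∃ a : ZMod p, i a = h s - (s • z - z) := by
    intro s
    apply hroot
    have := hy s
    rw [← hz, smul_sub, smul_pow'] at this
    simp only [g] at this
    rw [hpows, hpows]
    linear_combination this
  choose f hf2 using hf1
  refine ⟨f, ?_, ?_⟩
  · rw [IsLocallyConstant.iff_exists_open]
    intro σ
    refine ⟨{τ | σ⁻¹ * τ ∈ N} ∩ {τ | τ • z = σ • z}, ?_, ?_, ?_⟩
    · refine IsOpen.inter ?_ (W2.isOpen_smul_eq hcont z _)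
      exact hNo.preimage (continuous_const.mul continuous_id)
    · refine ⟨?_, rfl⟩
      simp
    · rintro τ ⟨h1, h2⟩
      apply hi
      rw [hf2, hf2, hhN σ τ h1]
      rw [show τ • z = σ • z from h2]
  · intro s t
    apply hi
    have e1 : s • i (f t) = s • (h t - (t • z - z)) := by rw [hf2]
    rw [hifix] at e1
    rw [map_sub, map_add, hh s t, e1, hf2 s, hf2 (s * t)]
    simp only [smul_sub, mul_smul]
    ring

end AS

/-! ## The residue field is Artin-Schreier closed -/

section Poly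

open Polynomial

theorem W2.eq_prod_roots {K : Type*} [Field K] {n : ℕ} (P : K[X]) (hP : P.Monic)
    (hdeg : P.natDegree = n) (a : ℕ → K) (hinj : Set.InjOn a (Finset.range n))
    (hroot : ∀ i < n, P.eval (a i) = 0) (x : K) :
    ∏ i ∈ Finset.range n, (x - a i) = P.eval x := by
  have hQ : (∏ i ∈ Finset.range n, (X - C (a i))).Monic := monic_prod_X_sub_C _ _
  have hQd : (∏ i ∈ Finset.range n, (X - C (a i))).natDegree = n := by
    rw [natDegree_prod_of_monic _ _ fun i _ => monic_X_sub_C _]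
    simp
  have h : P = ∏ i ∈ Finset.range n, (X - C (a i)) := by
    refine Polynomial.eq_of_degree_sub_lt_of_eval_index_eq (Finset.range n) hinj ?_ ?_
    · rw [Finset.card_range]
      have h1 := degree_sub_lt_left (p := P) (q := ∏ i ∈ Finset.range n, (X - C (a i))) (by
        rw [degree_eq_natDegree hP.ne_zero, degree_eq_natDegree hQ.ne_zero, hdeg, hQd])
        hP.ne_zero (by rw [hP.leadingCoeff, hQ.leadingCoeff])
      rwa [degree_eq_natDegree hP.ne_zero, hdeg] at h1
    · intro i hi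
      rw [hroot i (Finset.mem_range.1 hi), eval_prod, eq_comm, Finset.prod_eq_zero hi]
      simp
  rw [h, eval_prod]
  simp

theorem W2.prod_zeta {p : ℕ} [Fact p.Prime] {K : Type*} [Field K] {ζ : K} (hζ : IsPrimitiveRoot ζ p) (x : K) :
    ∏ i ∈ Finset.range p, (x - ζ ^ i) = x ^ p - 1 := by
  have hp : p.Prime := Fact.out
  rw [W2.eq_prod_roots (X ^ p - 1 : K[X]) (monic_X_pow_sub_C (1 : K) hp.ne_zero)
    (natDegree_X_pow_sub_C (n := p) (r := (1 : K))) (fun i => ζ ^ i) hζ.injOn_pow]
  · simp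
  · intro i _
    simp only [eval_sub, eval_pow, eval_X, eval_one]
    rw [← pow_mul, mul_comm, pow_mul, hζ.pow_eq_one, one_pow, sub_self]

theorem W2.prod_cast {p : ℕ} [Fact p.Prime] (κ : Type*) [Field κ] [CharP κ p] (z : κ) :
    ∏ i ∈ Finset.range p, (z - (i : κ)) = z ^ p - z := by
  have hp : p.Prime := Fact.out
  rw [W2.eq_prod_roots (X ^ p - X : κ[X]) (monic_X_pow_sub (by simp [hp.one_lt]))
    (FiniteField.X_pow_card_sub_X_natDegree_eq κ hp.one_lt) (fun i => (i : κ))]
  · simp
  · intro i hi j hj h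
    simp only [Finset.coe_range, Set.mem_Iio] at hi hj
    have := (CharP.natCast_eq_natCast κ p).1 h
    exact Nat.ModEq.eq_of_lt_of_lt this hi hj
  · intro i _
    simp only [eval_sub, eval_pow, eval_X]
    rw [← Nat.cast_pow, sub_eq_zero, CharP.natCast_eq_natCast κ p]
    have := ZMod.pow_card (p := p) (i : ZMod p)
    rw [← Nat.cast_pow, ZMod.natCast_eq_natCast_iff] at this
    exact this

end Poly

section Res

variable {p : ℕ} [Fact p.Prime] {G K : Type*} [Group G] [TopologicalSpace G]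
  [IsTopologicalGroup G] [CompactSpace G] [T2Space G] [TotallyDisconnectedSpace G] [Field K]
  [MulSemiringAction G K] {ζ : K}

theorem W2.residue_AS (hroot : ∀ x : K, ∃ y : K, y ^ p = x) (hζ : IsPrimitiveRoot ζ p)
    (O : ValuationSubring K) (hchar : (p : ResidueField O) = 0) (y : ResidueField O) :
    ∃ z : ResidueField O, z ^ p - z = y := by
  have : CharP (ResidueField O) p := (CharP.charP_iff_prime_eq_zero (Fact.out : p.Prime)).2 hchar
  have hp : p.Prime := Fact.out
  obtain ⟨y, rfl⟩ := residue_surjective y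
  have hζO : ζ ∈ O := by
    rw [← O.valuation_le_one_iff]
    have h1 : O.valuation ζ ^ p = 1 := by rw [← map_pow, hζ.pow_eq_one, map_one]
    by_contra hcon
    exact absurd h1 (one_lt_pow₀ (not_le.1 hcon) hp.ne_zero).ne'
  have hζ1 : residue O ⟨ζ, hζO⟩ = 1 := by
    have h1 : (residue O ⟨ζ, hζO⟩) ^ p = 1 := by
      rw [← map_pow]
      have : (⟨ζ, hζO⟩ : O) ^ p = 1 := Subtype.ext (by simpa using hζ.pow_eq_one)
      rw [this, map_one]
    have h2 : (residue O ⟨ζ, hζO⟩ - 1) ^ p = 0 := by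
      rw [sub_pow_char, h1, one_pow, sub_self]
    exact sub_eq_zero.1 (pow_eq_zero_iff hp.ne_zero |>.1 h2)
  have hl0 : ζ - 1 ≠ 0 := sub_ne_zero.2 (hζ.ne_one hp.one_lt)
  obtain ⟨x, hx⟩ := hroot (1 + (ζ - 1) ^ p * (y : K))
  obtain ⟨z, hz⟩ : ∃ z : K, z = (x - 1) / (ζ - 1) := ⟨_, rfl⟩
  have hxz : x = 1 + (ζ - 1) * z := by
    rw [hz, mul_div_cancel₀ _ hl0]
    ring
  let u : ℕ → O := fun i => ∑ j ∈ Finset.range i, (⟨ζ, hζO⟩ : O) ^ j
  have hu : ∀ i, (u i : K) * (ζ - 1) = ζ ^ i - 1 := by
    intro i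
    have := geom_sum_mul ζ i
    simp only [u]
    push_cast
    exact this
  have hures : ∀ i, residue O (u i) = (i : ResidueField O) := by
    intro i
    simp only [u, map_sum, map_pow, hζ1, one_pow, Finset.sum_const, Finset.card_range, nsmul_eq_mul,
      mul_one]
  have hprod : ∏ i ∈ Finset.range p, (z - (u i : K)) = y := by
    have h1 := W2.prod_zeta hζ x
    have h2 : ∀ i, x - ζ ^ i = (ζ - 1) * (z - (u i : K)) := by
      intro i
      rw [hxz]
      linear_combination hu i
    rw [hx, Finset.prod_congr rfl fun i _ => h2 i, Finset.prod_mul_distrib, Finset.prod_const,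
      Finset.card_range, add_sub_cancel_left] at h1
    exact mul_left_cancel₀ (pow_ne_zero p hl0) h1
  have hzO : z ∈ O := by
    by_contra hcon
    rw [← O.valuation_le_one_iff, not_le] at hcon
    have h1 : ∀ i, 1 < O.valuation (z - (u i : K)) := by
      intro i
      have h2 : O.valuation (u i : K) ≤ 1 := O.valuation_le_one _
      rw [Valuation.map_sub_eq_of_lt_left]
      · exact hcon
      · exact lt_of_le_of_lt h2 hcon
    have h3 : 1 < O.valuation (∏ i ∈ Finset.range p, (z - (u i : K))) := by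
      have h4 : ∀ n : ℕ, 1 < O.valuation (∏ i ∈ Finset.range (n + 1), (z - (u i : K))) := by
        intro n
        induction n with
        | zero => simpa using h1 0
        | succ n ih =>
          rw [Finset.prod_range_succ, map_mul]
          exact one_lt_mul_of_lt_of_le' ih (h1 _).le
      have h5 := h4 (p - 1)
      rwa [Nat.sub_add_cancel hp.one_le] at h5
    rw [hprod] at h3
    exact absurd (O.valuation_le_one y) (not_le.2 h3)
  refine ⟨residue O ⟨z, hzO⟩, ?_⟩
  rw [← W2.prod_cast]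
  have h1 : ∏ i ∈ Finset.range p, ((⟨z, hzO⟩ : O) - u i) = y := Subtype.ext (by
    push_cast
    exact hprod)
  rw [← h1, map_prod]
  refine Finset.prod_congr rfl fun i _ => ?_
  rw [map_sub, hures]

/-- W2 (the residue field of characteristic `p`; `H² = 0`) -/
theorem cob_of_wild (Gd : Good p G K ζ) (O : ValuationSubring K) (hT : NoInertia G O)
    (hchar : (p : IsLocalRing.ResidueField O) = 0) {c : Zg G O → Zg G O → ZMod p}
    (hc : IsCoc p c) : IsCob p c := by
  letI := resAct (G := G) O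
  have : CharP (ResidueField O) p := (CharP.charP_iff_prime_eq_zero (Fact.out : p.Prime)).2 hchar
  have hcl : IsClosed (Zg G O : Set G) := by
    have h1 : (Zg G O : Set G) = ⋂ x : K, {σ : G | x ∈ O ↔ σ • x ∈ O} := by
      ext σ
      simp only [Set.mem_iInter, Set.mem_ofPred_eq]
      rfl
    rw [h1]
    refine isClosed_iInter fun x => ?_
    have h2 : IsLocallyConstant (fun σ : G => σ • x) := W2.isLocallyConstant_smul Gd.cont x
    have h3 : {σ : G | x ∈ O ↔ σ • x ∈ O} = (fun σ : G => σ • x) ⁻¹' {z | x ∈ O ↔ z ∈ O} := rfl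
    rw [h3]
    rw [← isOpen_compl_iff]
    exact h2 ({z | x ∈ O ↔ z ∈ O}ᶜ)
  have : CompactSpace (Zg G O) := isCompact_iff_compactSpace.1 hcl.isCompact
  have hsmul : ∀ (σ : Zg G O) (x : O), σ • (residue O x) = residue O (actO O σ x) :=
    fun σ x => rfl
  refine cob_of_AS (κ := ResidueField O) ?_ ?_ (W2.residue_AS Gd.root Gd.prim O hchar) hc
  · intro x
    obtain ⟨x, rfl⟩ := residue_surjective x
    rw [isOpen_iff_mem_nhds]
    intro σ hσ
    have h1 : IsOpen {τ : Zg G O | (τ : G) • (x : K) = (σ : G) • (x : K)} :=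
      (W2.isOpen_smul_eq Gd.cont (x : K) ((σ : G) • (x : K))).preimage continuous_subtype_val
    refine Filter.mem_of_superset (h1.mem_nhds rfl) ?_
    intro τ hτ
    have h2 : actO O τ x = actO O σ x := Subtype.ext hτ
    have h3 : σ • (residue O x) = residue O x := hσ
    rw [hsmul] at h3
    change τ • (residue O x) = residue O x
    rw [hsmul, h2, h3]
  · intro σ hσ
    have h1 : (σ : G) = 1 := by
      refine hT σ σ.2 fun x hx => ?_
      have h2 := hσ (residue O ⟨x, hx⟩)
      rw [hsmul, ← sub_eq_zero, ← map_sub, residue_eq_zero_iff] at h2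
      have h3 := (O.valuation_lt_one_iff _).1 h2
      exact h3
    exact Subtype.ext h1

end Res

end Pool.Helper37.ETC
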